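import Pool.Agent.NPX.Stmts

set_option autoImplicit false

open Set Topology Pointwise

namespace Pool.Agent.NPX.H15

open Pool.Agent.LSG Pool.Agent.NPX

theorem dnn : DnnStmt := by
  intro K _ _ _ _ G hG hK
  by_contra hcon
  push Not at hcon
  apply hK
  have htb : TotallyBounded (Set.univ : Set K) := by
    rw [totallyBounded_iff_subset_finite_iUnion_nhds_one]
    intro W hW
    obtain ⟨W1, hW1, hW1c, hW1W⟩ := exists_mem_nhds_isClosed_subset hW
    have hpre : ((↑) : G → K) ⁻¹' W1 ∈ nhds (1 : G) :=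
      continuous_subtype_val.continuousAt.preimage_mem_nhds hW1
    obtain ⟨F, hF⟩ := hcon _ hpre
    refine ⟨((↑) : G → K) '' (F : Set G), F.finite_toSet.image _, ?_⟩
    have hcl : IsClosed (⋃ g ∈ F, (g : K) • W1) :=
      isClosed_biUnion_finset fun g _ => hW1c.smul _
    have hsub : (G : Set K) ⊆ ⋃ g ∈ F, (g : K) • W1 := by
      intro x hx
      have h1 : (⟨x, hx⟩ : G) ∈ ⋃ g ∈ F, g • (((↑) : G → K) ⁻¹' W1) := by
        rw [hF]
        trivial
      rw [mem_iUnion₂] at h1 ⊢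
      obtain ⟨g, hgF, hg⟩ := h1
      rw [mem_smul_set_iff_inv_smul_mem] at hg
      refine ⟨g, hgF, ?_⟩
      rw [mem_smul_set_iff_inv_smul_mem]
      exact hg
    intro x _
    have hx : x ∈ closure (G : Set K) := hG x
    have hx2 := closure_minimal hsub hcl hx
    rw [mem_iUnion₂] at hx2 ⊢
    obtain ⟨g, hgF, hg⟩ := hx2
    exact ⟨g, ⟨g, hgF, rfl⟩, smul_set_mono hW1W hg⟩
  exact ⟨htb.isCompact_of_isClosed isClosed_univ⟩

end Pool.Agent.NPX.H15
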