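import Pool.Agent.NPX.Stmts

set_option autoImplicit false

open Cardinal Set

namespace Pool.Agent.NPX.H15

open Pool.Agent.LSG Pool.Agent.NPX

section trn

variable {K : Type} [CommGroup K]

/-- the closure over `G0` -/
def Cl (G0 : Subgroup K) (Z : Set K) : Subgroup K := Subgroup.closure ((G0 : Set K) ∪ Z)

theorem cl_sub (G0 : Subgroup K) (Z : Set K) : Z ⊆ Cl G0 Z := fun _ hz =>
  Subgroup.subset_closure (Or.inr hz)

theorem cl_G0 (G0 : Subgroup K) (Z : Set K) : G0 ≤ Cl G0 Z := fun _ hz =>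
  Subgroup.subset_closure (Or.inl hz)

theorem cl_mono (G0 : Subgroup K) {Z Z' : Set K} (h : Z ⊆ Z') : Cl G0 Z ≤ Cl G0 Z' :=
  Subgroup.closure_mono (Set.union_subset_union_right _ h)

theorem cl_card (G0 : Subgroup K) (hG : (G0 : Set K).Countable) (Z : Set K) (hZ : #Z < 𝔠) :
    #(Cl G0 Z) < 𝔠 := by
  let W : Set K := (G0 : Set K) ∪ Z
  have hW : #W < 𝔠 := by
    refine (Cardinal.mk_union_le _ _).trans_lt (Cardinal.add_lt_of_lt aleph0_le_continuum ?_ hZ)
    exact hG.le_aleph0.trans_lt aleph0_lt_continuum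
  have hne : Nonempty W := ⟨⟨1, Or.inl G0.one_mem⟩⟩
  have hr : (FreeGroup.lift (Subtype.val : W → K)).range = Cl G0 Z := by
    rw [FreeGroup.range_lift_eq_closure, Subtype.range_coe]
    rfl
  have h1 : #((Cl G0 Z : Subgroup K) : Set K) ≤ #(FreeGroup W) := by
    rw [← hr, MonoidHom.coe_range]
    exact Cardinal.mk_range_le
  have h2 : #(FreeGroup W) = max #W ℵ₀ := Cardinal.mk_freeGroup W
  rw [h2] at h1
  exact h1.trans_lt (max_lt hW aleph0_lt_continuum)

theorem small_union {ι : Type} (hι : #ι < 𝔠) (f : ι → Set (ℕ → Bool)) (hf : ∀ i, (f i).Finite) :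
    #(⋃ i, f i : Set (ℕ → Bool)) < 𝔠 := by
  refine (Cardinal.mk_iUnion_le f).trans_lt (Cardinal.mul_lt_of_lt aleph0_le_continuum hι ?_)
  refine lt_of_le_of_lt ?_ aleph0_lt_continuum
  exact ciSup_le' fun i => (hf i).countable.le_aleph0

theorem mul_small {α β : Type} (h1 : #α < 𝔠) (h2 : #β < 𝔠) : #(α × β) < 𝔠 := by
  rw [← Cardinal.mul_def]
  exact Cardinal.mul_lt_of_lt aleph0_le_continuum h1 h2

/-- one step of the construction. -/
theorem trn_step (G0 : Subgroup K) (hG : (G0 : Set K).Countable) (b : Prop) (P : (ℕ → Bool) → K)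
    (φ : K → K) (h1 : ∀ t : ℤ, (∀ σ, (P σ) ^ t ∈ G0) ∨ ∀ y, {σ | (P σ) ^ t = y}.Finite)
    (h2 : b → ∀ (t : ℤ) y, {σ | φ (P σ) * ((P σ) ^ t)⁻¹ = y}.Finite)
    (Z Y : Set K) (hZ : #Z < 𝔠) (hY : #Y < 𝔠) :
    ∃ σ, (∀ t : ℤ, (∀ σ', (P σ') ^ t ∈ G0) ∨ ∀ g ∈ Cl G0 Z, ∀ y ∈ Y, (P σ) ^ t * g ≠ y) ∧
      (b → ∀ t : ℤ, φ (P σ) * ((P σ) ^ t)⁻¹ ∉ Cl G0 Z) := by
  have hC := cl_card G0 hG Z hZ
  have hz : #ℤ < 𝔠 := by
    rw [Cardinal.mk_int]
    exact aleph0_lt_continuum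
  let f : ℤ × ((Cl G0 Z) × Y) → Set (ℕ → Bool) := fun w =>
    {σ | ¬ (∀ σ', (P σ') ^ w.1 ∈ G0) ∧ (P σ) ^ w.1 = w.2.2.1 * (w.2.1.1)⁻¹}
  let g : ℤ × (Cl G0 Z) → Set (ℕ → Bool) := fun w =>
    {σ | b ∧ φ (P σ) * ((P σ) ^ w.1)⁻¹ = w.2.1}
  have hf : ∀ w, (f w).Finite := by
    intro w
    rcases h1 w.1 with h | h
    · have he : f w = ∅ := by
        ext σ
        simp only [f, mem_setOf_eq, mem_empty_iff_false, iff_false, not_and]
        exact fun h' => absurd h h'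
      rw [he]
      exact Set.finite_empty
    · exact (h _).subset fun σ hσ => hσ.2
  have hg : ∀ w, (g w).Finite := by
    intro w
    by_cases hb : b
    · exact (h2 hb w.1 w.2.1).subset fun σ hσ => hσ.2
    · have he : g w = ∅ := by
        ext σ
        simp only [g, mem_setOf_eq, mem_empty_iff_false, iff_false, not_and]
        exact fun h' => absurd h' hb
      rw [he]
      exact Set.finite_empty
  have hfs := small_union (mul_small hz (mul_small hC hY)) f hf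
  have hgs := small_union (mul_small hz hC) g hg
  by_contra hcon
  push Not at hcon
  have hcov : (Set.univ : Set (ℕ → Bool)) ⊆ (⋃ w, f w) ∪ (⋃ w, g w) := by
    intro σ _
    by_contra hn
    rw [Set.mem_union, not_or, Set.mem_iUnion, Set.mem_iUnion, not_exists, not_exists] at hn
    obtain ⟨hn1, hn2⟩ := hn
    obtain ⟨hb, t, ht⟩ := hcon σ (by
      intro t
      by_cases h : ∀ σ', (P σ') ^ t ∈ G0
      · exact Or.inl h
      · refine Or.inr ?_
        intro c hc y hy he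
        refine hn1 (t, (⟨c, hc⟩, ⟨y, hy⟩)) ⟨h, ?_⟩
        change (P σ) ^ t = y * c⁻¹
        rw [← he, mul_inv_cancel_right])
    exact hn2 (t, ⟨_, ht⟩) ⟨hb, rfl⟩
  have hle := Cardinal.mk_le_mk_of_subset hcov
  rw [Cardinal.mk_univ] at hle
  have hc : #(ℕ → Bool) = 𝔠 := by simp
  rw [hc] at hle
  exact absurd (hle.trans (Cardinal.mk_union_le _ _))
    (not_le.2 (Cardinal.add_lt_of_lt aleph0_le_continuum hfs hgs))

theorem cl_ins (G0 : Subgroup K) (Z : Set K) (a z : K) (hz : z ∈ Cl G0 (insert a Z)) :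
    ∃ t : ℤ, z * (a ^ t)⁻¹ ∈ Cl G0 Z := by
  have he : Cl G0 (insert a Z) = Subgroup.closure {a} ⊔ Cl G0 Z := by
    unfold Cl
    rw [← Subgroup.closure_union, Set.insert_eq, Set.union_left_comm]
  rw [he, Subgroup.mem_sup] at hz
  obtain ⟨y, hy, w, hw, rfl⟩ := hz
  rw [Subgroup.mem_closure_singleton] at hy
  obtain ⟨t, rfl⟩ := hy
  refine ⟨t, ?_⟩
  rw [mul_comm (a ^ t) w, mul_inv_cancel_right]
  exact hw

section order

variable {J : Type} [LinearOrder J]

/-- finitely many generators suffice. -/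
theorem cl_dir (G0 : Subgroup K) (x : J → K) (S : Set J) (j : J) (hj : j ∈ S) (z : K)
    (hz : z ∈ Cl G0 (x '' S)) :
    ∃ i ∈ S, j ≤ i ∧ z ∈ Cl G0 (x '' Set.Iic i) := by
  refine Subgroup.closure_induction
    (p := fun z _ => ∃ i ∈ S, j ≤ i ∧ z ∈ Cl G0 (x '' Set.Iic i)) ?_ ?_ ?_ ?_ hz
  · rintro z (hz | ⟨l, hl, rfl⟩)
    · exact ⟨j, hj, le_rfl, cl_G0 G0 _ hz⟩
    · have hm : max j l ∈ S := by
        rcases max_choice j l with h | h <;> rw [h]
        · exact hj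
        · exact hl
      exact ⟨max j l, hm, le_max_left _ _, cl_sub G0 _ ⟨l, le_max_right _ _, rfl⟩⟩
  · exact ⟨j, hj, le_rfl, Subgroup.one_mem _⟩
  · rintro u v _ _ ⟨i1, hi1, hj1, h1⟩ ⟨i2, hi2, hj2, h2⟩
    have hm : max i1 i2 ∈ S := by
      rcases max_choice i1 i2 with h | h <;> rw [h]
      · exact hi1
      · exact hi2
    refine ⟨max i1 i2, hm, hj1.trans (le_max_left _ _), Subgroup.mul_mem _ ?_ ?_⟩
    · exact cl_mono G0 (Set.image_mono (Set.Iic_subset_Iic.2 (le_max_left _ _))) h1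
    · exact cl_mono G0 (Set.image_mono (Set.Iic_subset_Iic.2 (le_max_right _ _))) h2
  · rintro u _ ⟨i, hi, hji, h⟩
    exact ⟨i, hi, hji, Subgroup.inv_mem _ h⟩

/-- the construction over a well-order with small initial segments. -/
theorem trn_order [WellFoundedLT J] (hJ : ∀ i : J, #(Set.Iio i) < 𝔠) (b : J → Prop)
    (P : J → (ℕ → Bool) → K) (φ : J → K → K) (G0 : Subgroup K) (hG : (G0 : Set K).Countable)
    (h1 : ∀ i (t : ℤ), (∀ σ, (P i σ) ^ t ∈ G0) ∨ ∀ y, {σ | (P i σ) ^ t = y}.Finite)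
    (h2 : ∀ i, b i → ∀ (t : ℤ) y, {σ | φ i (P i σ) * ((P i σ) ^ t)⁻¹ = y}.Finite) :
    ∃ G : Subgroup K, G0 ≤ G ∧ ∀ i, ∃ σ, P i σ ∈ G ∧ (b i → φ i (P i σ) ∉ G) := by
  -- the recursion
  have hex : ∃ s : J → (ℕ → Bool), ∀ i,
      (∀ t : ℤ, (∀ σ', (P i σ') ^ t ∈ G0) ∨
        ∀ g ∈ Cl G0 ((fun j => P j (s j)) '' Set.Iio i),
        ∀ y ∈ (fun j => φ j (P j (s j))) '' Set.Iio i, (P i (s i)) ^ t * g ≠ y) ∧
      (b i → ∀ t : ℤ, φ i (P i (s i)) * ((P i (s i)) ^ t)⁻¹ ∉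
        Cl G0 ((fun j => P j (s j)) '' Set.Iio i)) := by
    have hstep : ∀ (i : J) (prev : (j : J) → j < i → (ℕ → Bool)), ∃ σ : ℕ → Bool,
        (∀ t : ℤ, (∀ σ', (P i σ') ^ t ∈ G0) ∨
          ∀ g ∈ Cl G0 (Set.range (fun j : Set.Iio i => P j.1 (prev j.1 j.2))),
          ∀ y ∈ Set.range (fun j : Set.Iio i => φ j.1 (P j.1 (prev j.1 j.2))),
            (P i σ) ^ t * g ≠ y) ∧
        (b i → ∀ t : ℤ, φ i (P i σ) * ((P i σ) ^ t)⁻¹ ∉
          Cl G0 (Set.range (fun j : Set.Iio i => P j.1 (prev j.1 j.2)))) := by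
      intro i prev
      refine trn_step G0 hG (b i) (P i) (φ i) (h1 i) (h2 i) _ _ ?_ ?_
      · exact Cardinal.mk_range_le.trans_lt (hJ i)
      · exact Cardinal.mk_range_le.trans_lt (hJ i)
    choose F hF using hstep
    set s : J → (ℕ → Bool) := (wellFounded_lt (α := J)).fix F with hs
    have hfix : ∀ i, s i = F i (fun j _ => s j) := by
      intro i
      rw [hs]
      exact WellFounded.fix_eq _ F i
    refine ⟨s, ?_⟩
    intro i
    have h := hF i (fun j _ => s j)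
    rw [← hfix i] at h
    have e1 : Set.range (fun j : Set.Iio i => P j.1 (s j.1)) = (fun j => P j (s j)) '' Set.Iio i := by
      rw [Set.image_eq_range]
    have e2 : Set.range (fun j : Set.Iio i => φ j.1 (P j.1 (s j.1)))
        = (fun j => φ j (P j (s j))) '' Set.Iio i := by
      rw [Set.image_eq_range]
    rw [e1, e2] at h
    exact h
  obtain ⟨s, hs⟩ := hex
  set x : J → K := fun j => P j (s j) with hx
  -- the claim
  have hclaim : ∀ i j, j ≤ i → b j → φ j (x j) ∉ Cl G0 (x '' Set.Iic i) := by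
    intro i
    induction i using WellFoundedLT.induction with
    | ind i ih =>
      intro j hji hbj hmem
      have hI : x '' Set.Iic i = insert (x i) (x '' Set.Iio i) := by
        rw [← Set.Iio_insert, Set.image_insert_eq]
      rw [hI] at hmem
      obtain ⟨ha, hb⟩ := hs i
      obtain ⟨t, ht⟩ := cl_ins _ _ _ _ hmem
      rcases hji.lt_or_eq with hlt | rfl
      · rcases ha t with h | h
        · have h3 : φ j (x j) ∈ Cl G0 (x '' Set.Iio i) := by
            have h4 := Subgroup.mul_mem _ ht (cl_G0 G0 _ (h (s i)))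
            have e : φ j (x j) * (x i ^ t)⁻¹ * (P i (s i)) ^ t = φ j (x j) := by
              change φ j (x j) * (x i ^ t)⁻¹ * (x i) ^ t = φ j (x j)
              rw [inv_mul_cancel_right]
            rw [e] at h4
            exact h4
          obtain ⟨i', hi', hj', hz⟩ := cl_dir G0 x (Set.Iio i) j hlt _ h3
          exact ih i' hi' j hj' hbj hz
        · refine h _ ht (φ j (x j)) ⟨j, hlt, rfl⟩ ?_
          change x i ^ t * (φ j (x j) * (x i ^ t)⁻¹) = φ j (x j)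
          rw [mul_comm (x i ^ t), inv_mul_cancel_right]
      · exact hb hbj t ht
  refine ⟨Cl G0 (Set.range x), cl_G0 G0 _, ?_⟩
  intro i
  refine ⟨s i, cl_sub G0 _ ⟨i, rfl⟩, ?_⟩
  intro hbi hmem
  rw [← Set.image_univ] at hmem
  obtain ⟨i', -, hj', hz⟩ := cl_dir G0 x Set.univ i (Set.mem_univ i) _ hmem
  exact hclaim i' i hj' hbi hz

end order

end trn

/-- **Row TRN**. -/
theorem trn : TrnStmt := by
  intro K _ I b P φ G0 hG hI h1 h2
  obtain ⟨e⟩ : Nonempty ((#I).ord.ToType ≃ I) := Cardinal.eq.1 (Cardinal.mk_ord_toType _)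
  obtain ⟨G, hG0, hGi⟩ := trn_order (J := (#I).ord.ToType)
    (fun i => (Cardinal.mk_Iio_ord_toType i).trans_le hI)
    (fun i => b (e i)) (fun i => P (e i)) (fun i => φ (e i)) G0 hG (fun i => h1 (e i))
    (fun i => h2 (e i))
  refine ⟨G, hG0, ?_⟩
  intro i
  have h := hGi (e.symm i)
  simpa using h

end Pool.Agent.NPX.H15
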